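import Mathlib

/-! The partial sum projections of a basis of a Banach space are uniformly bounded. -/

set_option autoImplicit false

open Finset Filter Topology BoundedContinuousFunction

namespace Pool.Agent.U582.BE

variable {𝕜 : Type*} [RCLike 𝕜] {E : Type*} [NormedAddCommGroup E] [NormedSpace 𝕜 E]

/-- the space of the convergent series -/
def Zs (𝕜 : Type*) [RCLike 𝕜] {E : Type*} [NormedAddCommGroup E] [NormedSpace 𝕜 E]
    (u : ℕ → E) : Submodule 𝕜 (ℕ →ᵇ E) where
  carrier := {s | (∃ a : ℕ → 𝕜, ∀ n, s n = ∑ i ∈ range n, a i • u i) ∧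
    ∃ x, Tendsto (fun n => s n) atTop (𝓝 x)}
  add_mem' := by
    rintro s t ⟨⟨a, ha⟩, x, hx⟩ ⟨⟨b, hb⟩, y, hy⟩
    refine ⟨⟨fun i => a i + b i, fun n => ?_⟩, x + y, ?_⟩
    · rw [BoundedContinuousFunction.add_apply, ha, hb, ← Finset.sum_add_distrib]
      simp only [add_smul]
    · exact hx.add hy
  zero_mem' := ⟨⟨fun _ => 0, fun n => by simp⟩, 0, by simp⟩
  smul_mem' := by
    rintro c s ⟨⟨a, ha⟩, x, hx⟩
    refine ⟨⟨fun i => c * a i, fun n => ?_⟩, c • x, ?_⟩
    · rw [BoundedContinuousFunction.smul_apply, ha, Finset.smul_sum]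
      simp only [mul_smul]
    · exact hx.const_smul c

lemma Zs_closed [CompleteSpace E] (u : ℕ → E) : IsClosed (Zs 𝕜 u : Set (ℕ →ᵇ E)) := by
  apply IsSeqClosed.isClosed
  intro S s hS hs
  have hev : ∀ n, Tendsto (fun k => S k n) atTop (𝓝 (s n)) := by
    intro n
    exact ((BoundedContinuousFunction.evalCLM 𝕜 (β := E) n).continuous.tendsto s).comp hs
  constructor
  · have h0 : s 0 = 0 := by
      refine tendsto_nhds_unique (hev 0) ?_
      have : ∀ k, S k 0 = 0 := by
        intro k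
        obtain ⟨⟨a, ha⟩, _⟩ := hS k
        rw [ha]
        simp
      simp only [this]
      exact tendsto_const_nhds
    have h1 : ∀ n, s (n + 1) - s n ∈ Submodule.span 𝕜 {u n} := by
      intro n
      have hcl : IsClosed ((Submodule.span 𝕜 {u n} : Submodule 𝕜 E) : Set E) :=
        Submodule.closed_of_finiteDimensional _
      refine hcl.mem_of_tendsto ((hev (n + 1)).sub (hev n)) (Eventually.of_forall fun k => ?_)
      obtain ⟨⟨a, ha⟩, _⟩ := hS k
      rw [ha, ha, Finset.sum_range_succ, add_sub_cancel_left]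
      exact Submodule.smul_mem _ _ (Submodule.mem_span_singleton_self _)
    simp only [Submodule.mem_span_singleton] at h1
    choose a ha using h1
    refine ⟨a, fun n => ?_⟩
    induction n with
    | zero => simpa using h0
    | succ n ih =>
      rw [Finset.sum_range_succ, ← ih, ha]
      abel
  · apply cauchySeq_tendsto_of_complete
    rw [Metric.cauchySeq_iff']
    intro ε hε
    obtain ⟨k, hk⟩ := ((Metric.tendsto_atTop.mp hs) (ε / 4) (by positivity))
    have hk := hk k le_rfl
    obtain ⟨_, x, hx⟩ := hS k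
    obtain ⟨N, hN⟩ := (Metric.cauchySeq_iff'.mp hx.cauchySeq) (ε / 4) (by positivity)
    refine ⟨N, fun n hn => ?_⟩
    have h1 : dist (s n) (S k n) ≤ ε / 4 :=
      (BoundedContinuousFunction.dist_coe_le_dist n).trans (by rw [dist_comm]; exact hk.le)
    have h2 : dist (S k N) (s N) ≤ ε / 4 :=
      (BoundedContinuousFunction.dist_coe_le_dist N).trans hk.le
    have h3 := hN n hn
    calc dist (s n) (s N) ≤ dist (s n) (S k n) + dist (S k n) (S k N) + dist (S k N) (s N) :=
          dist_triangle4 _ _ _ _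
      _ < ε := by linarith

/-- the limit -/
noncomputable def limZ (u : ℕ → E) (s : Zs 𝕜 u) : E := s.2.2.choose

lemma limZ_spec (u : ℕ → E) (s : Zs 𝕜 u) :
    Tendsto (fun n => (s : ℕ →ᵇ E) n) atTop (𝓝 (limZ u s)) := s.2.2.choose_spec

/-- the limit, as a linear operator -/
noncomputable def limL (u : ℕ → E) : Zs 𝕜 u →L[𝕜] E :=
  LinearMap.mkContinuous
    { toFun := limZ u
      map_add' := fun s t => tendsto_nhds_unique (limZ_spec u (s + t))
        ((limZ_spec u s).add (limZ_spec u t))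
      map_smul' := fun c s => tendsto_nhds_unique (limZ_spec u (c • s))
        ((limZ_spec u s).const_smul c) } 1 (fun s => by
    rw [one_mul]
    refine le_of_tendsto (limZ_spec u s).norm (Eventually.of_forall fun n => ?_)
    exact BoundedContinuousFunction.norm_coe_le_norm _ n)

lemma limL_spec (u : ℕ → E) (s : Zs 𝕜 u) :
    Tendsto (fun n => (s : ℕ →ᵇ E) n) atTop (𝓝 (limL u s)) := limZ_spec u s

/-- The partial sum projections of a basis. -/
theorem exists_proj [CompleteSpace E] {u : ℕ → E}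
    (hu : ∀ x : E, ∃! a : ℕ → 𝕜, Tendsto (fun n => ∑ i ∈ range n, a i • u i) atTop (𝓝 x)) :
    ∃ (K : ℝ) (P : ℕ → E →L[𝕜] E), (∀ n x, ‖P n x‖ ≤ K * ‖x‖) ∧
      ∀ n i, P n (u i) = if i < n then u i else 0 := by
  have : CompleteSpace (Zs 𝕜 u) := (Zs_closed u).completeSpace_coe
  have hmk : ∀ (x : E) (a : ℕ → 𝕜), Tendsto (fun n => ∑ i ∈ range n, a i • u i) atTop (𝓝 x) →
      ∃ s : Zs 𝕜 u, limL u s = x ∧ ∀ n, (s : ℕ →ᵇ E) n = ∑ i ∈ range n, a i • u i := by
    intro x a ha
    obtain ⟨M, hM⟩ := isBounded_iff_forall_norm_le.mp (Metric.isBounded_range_of_tendsto _ ha)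
    let s : ℕ →ᵇ E := BoundedContinuousFunction.ofNormedAddCommGroup
      (fun n => ∑ i ∈ range n, a i • u i) continuous_of_discreteTopology M
      (fun n => hM _ ⟨n, rfl⟩)
    have hs : ∀ n, s n = ∑ i ∈ range n, a i • u i := fun n => rfl
    refine ⟨⟨s, ⟨a, hs⟩, x, ?_⟩, ?_, hs⟩
    · simp only [hs]
      exact ha
    · refine tendsto_nhds_unique (limL_spec u _) ?_
      exact ha
  have hinj : (limL (𝕜 := 𝕜) u).ker = ⊥ := by
    rw [LinearMap.ker_eq_bot']
    intro s hs
    have h1 := limL_spec u s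
    obtain ⟨a, ha⟩ := s.2.1
    have hs' : limL u s = 0 := hs
    rw [hs'] at h1
    simp only [ha] at h1
    have h2 : Tendsto (fun n => ∑ i ∈ range n, (0 : ℕ → 𝕜) i • u i) atTop (𝓝 0) := by
      simp
    have h3 := (hu 0).unique h1 h2
    apply Subtype.ext
    ext n
    rw [ha, h3]
    simp
  have hsurj : (limL (𝕜 := 𝕜) u).range = ⊤ := by
    rw [LinearMap.range_eq_top]
    intro x
    obtain ⟨a, ha, _⟩ := hu x
    obtain ⟨s, hs, _⟩ := hmk x a ha
    exact ⟨s, hs⟩
  let R := ContinuousLinearEquiv.ofBijective (limL (𝕜 := 𝕜) u) hinj hsurj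
  refine ⟨‖(R.symm : E →L[𝕜] Zs 𝕜 u)‖, fun n =>
    (BoundedContinuousFunction.evalCLM 𝕜 n).comp ((Zs 𝕜 u).subtypeL.comp
      (R.symm : E →L[𝕜] Zs 𝕜 u)), fun n x => ?_, fun n i => ?_⟩
  · have h1 : ‖((R.symm x : Zs 𝕜 u) : ℕ →ᵇ E) n‖ ≤ ‖R.symm x‖ :=
      BoundedContinuousFunction.norm_coe_le_norm _ n
    exact h1.trans ((R.symm : E →L[𝕜] Zs 𝕜 u).le_opNorm x)
  · have h1 : Tendsto (fun n => ∑ j ∈ range n, (Pi.single i (1:𝕜) : ℕ → 𝕜) j • u j) atTop
        (𝓝 (u i)) := by
      apply tendsto_const_nhds.congr'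
      filter_upwards [eventually_gt_atTop i] with n hn
      rw [Finset.sum_eq_single i]
      · simp
      · intro j _ hj
        simp [hj]
      · intro h
        exact absurd (Finset.mem_range.mpr hn) h
    obtain ⟨s, hs1, hs2⟩ := hmk _ _ h1
    have h2 : R.symm (u i) = s := by
      rw [ContinuousLinearEquiv.symm_apply_eq]
      exact hs1.symm
    change ((R.symm (u i) : Zs 𝕜 u) : ℕ →ᵇ E) n = _
    rw [h2, hs2]
    split_ifs with hin
    · rw [Finset.sum_eq_single i]
      · simp
      · intro j _ hj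
        simp [hj]
      · intro h
        exact absurd (Finset.mem_range.mpr hin) h
    · apply Finset.sum_eq_zero
      intro j hj
      have : j ≠ i := by
        rintro rfl
        exact hin (Finset.mem_range.mp hj)
      simp [this]

end Pool.Agent.U582.BE
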