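import Pool.Agent.U582.BE.Kh

/-! Sylvester matrices and a trace inequality. -/

set_option autoImplicit false

open Finset

namespace Pool.Agent.U582.BE

/-- the Sylvester matrix of order `2 ^ k` -/
def had {k : ℕ} (i j : Fin k → Bool) : ℝ := ∏ l, (if i l && j l then -1 else 1)

lemma had_sq {k : ℕ} (i j : Fin k → Bool) : had i j = 1 ∨ had i j = -1 := by
  have h : had i j ^ 2 = 1 := by
    unfold had
    rw [← Finset.prod_pow]
    apply Finset.prod_eq_one
    intro l _
    split_ifs <;> norm_num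
  exact sq_eq_one_iff.mp h

lemma had_orth {k : ℕ} (i i' : Fin k → Bool) :
    ∑ j, had i j * had i' j = if i = i' then (2:ℝ) ^ k else 0 := by
  have h1 : ∀ j : Fin k → Bool, had i j * had i' j =
      ∏ l, ((if i l && j l then (-1:ℝ) else 1) * (if i' l && j l then (-1:ℝ) else 1)) := by
    intro j
    unfold had
    rw [Finset.prod_mul_distrib]
  simp only [h1]
  rw [← Fintype.prod_sum (fun (l : Fin k) (b : Bool) =>
    ((if i l && b then (-1:ℝ) else 1) * (if i' l && b then (-1:ℝ) else 1)))]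
  have h2 : ∀ l : Fin k, ∑ b : Bool,
      ((if i l && b then (-1:ℝ) else 1) * (if i' l && b then (-1:ℝ) else 1)) =
        if i l = i' l then 2 else 0 := by
    intro l
    cases i l <;> cases i' l <;> norm_num
  simp only [h2]
  split_ifs with h
  · subst h
    simp
  · obtain ⟨l, hl⟩ := Function.ne_iff.mp h
    exact Finset.prod_eq_zero (Finset.mem_univ l) (if_neg hl)

lemma had_bound {k : ℕ} (α β : (Fin k → Bool) → ℝ) (hα : ∀ i, α i ^ 2 = 1)
    (hβ : ∀ i, β i ^ 2 = 1) : (∑ i, ∑ j, had i j * (α i * β j)) ^ 2 ≤ (8:ℝ) ^ k := by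
  have h1 : ∑ i, ∑ j, had i j * (α i * β j) = ∑ j, β j * ∑ i, had i j * α i := by
    rw [Finset.sum_comm]
    apply Finset.sum_congr rfl
    intro j _
    rw [Finset.mul_sum]
    apply Finset.sum_congr rfl
    intro i _
    ring
  rw [h1]
  refine (Finset.sum_mul_sq_le_sq_mul_sq _ _ _).trans (le_of_eq ?_)
  have h2 : ∑ j, (∑ i, had i j * α i) ^ 2 = (4:ℝ) ^ k := by
    have h3 : ∀ j : Fin k → Bool, (∑ i, had i j * α i) ^ 2 =
        ∑ i, ∑ i', (had i j * had i' j) * (α i * α i') := by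
      intro j
      rw [sq, Finset.sum_mul_sum]
      apply Finset.sum_congr rfl
      intro i _
      apply Finset.sum_congr rfl
      intro i' _
      ring
    simp only [h3]
    rw [Finset.sum_comm]
    have h4 : ∀ i : Fin k → Bool, ∑ j, ∑ i', (had i j * had i' j) * (α i * α i') = (2:ℝ) ^ k := by
      intro i
      rw [Finset.sum_comm]
      have h5 : ∀ i' : Fin k → Bool, ∑ j, (had i j * had i' j) * (α i * α i') =
          (if i = i' then (2:ℝ) ^ k else 0) * (α i * α i') := by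
        intro i'
        rw [← Finset.sum_mul, had_orth]
      simp only [h5]
      rw [Finset.sum_eq_single i]
      · rw [if_pos rfl]
        have := hα i
        rw [← sq, this, mul_one]
      · intro b _ hb
        rw [if_neg (Ne.symm hb), zero_mul]
      · intro h
        exact absurd (Finset.mem_univ i) h
    simp only [h4]
    rw [Finset.sum_const, Finset.card_univ]
    simp
    rw [← mul_pow]
    norm_num
  rw [h2]
  simp only [hβ]
  rw [Finset.sum_const, Finset.card_univ]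
  simp
  rw [← mul_pow]
  norm_num

/-- the index set -/
abbrev Ix (m : ℕ) := Fin (2 * m) → Bool

/-- the set of pairs with a positive entry of the Sylvester matrix -/
def Pos (m : ℕ) (q : Ix m × Ix m) : Prop := had q.1 q.2 = 1

variable (𝕜 : Type*) [RCLike 𝕜]

/-- the function number `q` -/
def wal {m : ℕ} (q : Ix m × Ix m) (z : (Ix m → Bool) × (Ix m → Bool)) : 𝕜 :=
  sg 𝕜 (z.1 q.1) * sg 𝕜 (z.2 q.2)

/-- the number of points -/
noncomputable def nn (m : ℕ) : ℝ := num (Ix m) (Ix m)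

lemma nn_pos (m : ℕ) : 0 < nn m := num_pos

lemma card_pts (m : ℕ) : (Fintype.card ((Ix m → Bool) × (Ix m → Bool)) : ℝ) = nn m := by
  unfold nn num
  rw [Fintype.card_prod, Nat.cast_mul]

variable {𝕜}

lemma sg_ofReal (b : Bool) : sg 𝕜 b = ((sg ℝ b : ℝ) : 𝕜) := by
  cases b <;> simp [sg]

lemma kernel_bound {m : ℕ} (z z' : (Ix m → Bool) × (Ix m → Bool)) :
    ‖∑ q : Ix m × Ix m, ((had q.1 q.2 : ℝ) : 𝕜) * (wal 𝕜 q z * wal 𝕜 q z')‖ ≤ (8:ℝ) ^ m := by
  have h1 : ∑ q : Ix m × Ix m, ((had q.1 q.2 : ℝ) : 𝕜) * (wal 𝕜 q z * wal 𝕜 q z') =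
      ((∑ i : Ix m, ∑ j : Ix m, had i j * ((sg ℝ (z.1 i) * sg ℝ (z'.1 i)) *
        (sg ℝ (z.2 j) * sg ℝ (z'.2 j))) : ℝ) : 𝕜) := by
    rw [Fintype.sum_prod_type]
    push_cast
    apply Finset.sum_congr rfl
    intro i _
    apply Finset.sum_congr rfl
    intro j _
    unfold wal
    simp only [sg_ofReal (𝕜 := 𝕜)]
    ring
  rw [h1, RCLike.norm_ofReal]
  apply abs_le_of_sq_le_sq _ (by positivity)
  refine (had_bound _ _ ?_ ?_).trans (le_of_eq ?_)
  · intro i
    rw [mul_pow, sq, sq, sg_mul_self, sg_mul_self]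
    norm_num
  · intro i
    rw [mul_pow, sq, sq, sg_mul_self, sg_mul_self]
    norm_num
  · rw [← pow_mul, mul_comm]

open Classical in
/-- at least nearly half of the entries are positive -/
lemma card_pos (m : ℕ) :
    (16:ℝ) ^ m - 8 ^ m ≤ 2 * ((Finset.univ.filter (fun q : Ix m × Ix m => Pos m q)).card : ℝ) := by
  have h1 : ∑ q : Ix m × Ix m, had q.1 q.2 =
      2 * ((Finset.univ.filter (fun q : Ix m × Ix m => Pos m q)).card : ℝ) - 16 ^ m := by
    have h2 : ∀ q : Ix m × Ix m, had q.1 q.2 = 2 * (if Pos m q then 1 else 0) - 1 := by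
      intro q
      unfold Pos
      rcases had_sq q.1 q.2 with h | h <;> rw [h] <;> norm_num
    simp only [h2]
    rw [Finset.sum_sub_distrib, ← Finset.mul_sum, Finset.sum_boole, Finset.sum_const,
      Finset.card_univ]
    congr 1
    simp
    rw [← pow_add, show 2 * m + 2 * m = 4 * m by ring, pow_mul]
    norm_num
  have h3 := kernel_bound (𝕜 := ℝ) (m := m) (fun _ => true, fun _ => true)
    (fun _ => true, fun _ => true)
  have h4 : ∑ q : Ix m × Ix m, ((had q.1 q.2 : ℝ) : ℝ) *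
      (wal ℝ q (fun _ => true, fun _ => true) * wal ℝ q (fun _ => true, fun _ => true)) =
      ∑ q : Ix m × Ix m, had q.1 q.2 := by
    apply Finset.sum_congr rfl
    intro q _
    simp [wal, sg]
  simp only [RCLike.ofReal_real_eq_id, id_eq] at h3
  rw [h4] at h3
  have h5 := (abs_le.mp h3).1
  linarith

open Classical in
/-- trace inequality -/
lemma trace_ineq {m : ℕ} {C : ℝ}
    (t : (Ix m → Bool) × (Ix m → Bool) → (Ix m → Bool) × (Ix m → Bool) → 𝕜)
    (hC : ∀ z', ∑ z, ‖t z z'‖ ≤ C)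
    (hT : ∀ q z, ∑ z', wal 𝕜 q z' * t z z' = if Pos m q then wal 𝕜 q z else 0) :
    ((Finset.univ.filter (fun q : Ix m × Ix m => Pos m q)).card : ℝ) ≤ C * 8 ^ m := by
  set S : 𝕜 := ∑ q : Ix m × Ix m, ∑ z, ((had q.1 q.2 : ℝ) : 𝕜) *
    (wal 𝕜 q z * ∑ z', wal 𝕜 q z' * t z z') with hS
  have h1 : S = ((((Finset.univ.filter (fun q : Ix m × Ix m => Pos m q)).card : ℝ) * nn m : ℝ)
      : 𝕜) := by
    rw [hS]
    have h2 : ∀ q : Ix m × Ix m, ∑ z, ((had q.1 q.2 : ℝ) : 𝕜) *
        (wal 𝕜 q z * ∑ z', wal 𝕜 q z' * t z z') = if Pos m q then ((nn m : ℝ) : 𝕜) else 0 := by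
      intro q
      simp only [hT]
      by_cases h : Pos m q
      · simp only [if_pos h]
        have h3 : ∀ z, ((had q.1 q.2 : ℝ) : 𝕜) * (wal 𝕜 q z * wal 𝕜 q z) = 1 := by
          intro z
          unfold Pos at h
          rw [h]
          unfold wal
          have e1 := sg_mul_self (𝕜 := 𝕜) (z.1 q.1)
          have e2 := sg_mul_self (𝕜 := 𝕜) (z.2 q.2)
          calc _ = (sg 𝕜 (z.1 q.1) * sg 𝕜 (z.1 q.1)) * (sg 𝕜 (z.2 q.2) * sg 𝕜 (z.2 q.2)) := by
                push_cast; ring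
            _ = 1 := by rw [e1, e2, one_mul]
        simp only [h3]
        rw [Finset.sum_const, Finset.card_univ, nsmul_eq_mul, mul_one, ← card_pts]
        push_cast
        rfl
      · simp [if_neg h]
    simp only [h2]
    rw [← Finset.sum_filter, Finset.sum_const, nsmul_eq_mul]
    push_cast
    rfl
  have h2 : S = ∑ z', ∑ z, t z z' *
      ∑ q : Ix m × Ix m, ((had q.1 q.2 : ℝ) : 𝕜) * (wal 𝕜 q z * wal 𝕜 q z') := by
    rw [hS, Finset.sum_comm]
    rw [Finset.sum_comm (s := (Finset.univ : Finset ((Ix m → Bool) × (Ix m → Bool))))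
      (t := (Finset.univ : Finset ((Ix m → Bool) × (Ix m → Bool))))]
    apply Finset.sum_congr rfl
    intro z _
    simp only [Finset.mul_sum]
    rw [Finset.sum_comm]
    apply Finset.sum_congr rfl
    intro z' _
    apply Finset.sum_congr rfl
    intro q _
    ring
  have h3 : ‖S‖ ≤ nn m * (C * 8 ^ m) := by
    rw [h2]
    refine (norm_sum_le _ _).trans ?_
    have h4 : ∀ z', ‖∑ z, t z z' *
        ∑ q : Ix m × Ix m, ((had q.1 q.2 : ℝ) : 𝕜) * (wal 𝕜 q z * wal 𝕜 q z')‖ ≤ C * 8 ^ m := by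
      intro z'
      refine (norm_sum_le _ _).trans ?_
      calc _ ≤ ∑ z, ‖t z z'‖ * 8 ^ m := by
            apply Finset.sum_le_sum
            intro z _
            rw [norm_mul]
            exact mul_le_mul_of_nonneg_left (kernel_bound z z') (norm_nonneg _)
        _ = (∑ z, ‖t z z'‖) * 8 ^ m := by rw [Finset.sum_mul]
        _ ≤ C * 8 ^ m := mul_le_mul_of_nonneg_right (hC z') (by positivity)
    refine (Finset.sum_le_sum fun z' _ => h4 z').trans ?_
    rw [Finset.sum_const, Finset.card_univ, nsmul_eq_mul, card_pts]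
  rw [h1, RCLike.norm_ofReal, abs_of_nonneg (mul_nonneg (Nat.cast_nonneg _) (nn_pos m).le),
    mul_comm] at h3
  exact le_of_mul_le_mul_left h3 (nn_pos m)

end Pool.Agent.U582.BE
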