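import Mathlib

/-! Moments of Rademacher sums and of bilinear Rademacher sums. -/

set_option autoImplicit false

open Finset

namespace Pool.Agent.U582.BE

/-- the sign of a Boolean -/
def sg (𝕜 : Type*) [RCLike 𝕜] (b : Bool) : 𝕜 := if b then 1 else -1

variable {𝕜 : Type*} [RCLike 𝕜]

lemma sg_not (b : Bool) : sg 𝕜 (!b) = - sg 𝕜 b := by
  cases b <;> simp [sg]

lemma sg_mul_self (b : Bool) : sg 𝕜 b * sg 𝕜 b = 1 := by
  cases b <;> simp [sg]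

lemma norm_sg (b : Bool) : ‖sg 𝕜 b‖ = 1 := by
  cases b <;> simp [sg]

section vec

variable {H : Type*} [NormedAddCommGroup H] [InnerProductSpace 𝕜 H]
variable {I : Type*} [Fintype I] [DecidableEq I]

/-- flip the coordinate `i` -/
def flip (i : I) : (I → Bool) ≃ (I → Bool) where
  toFun x := Function.update x i (!x i)
  invFun x := Function.update x i (!x i)
  left_inv x := by simp
  right_inv x := by simp

lemma sum_flip (i : I) (F : H → ℝ) (g : (I → Bool) → H) (hg : ∀ x, g (flip i x) = g x) (a : H) :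
    2 * ∑ x, F (g x + sg 𝕜 (x i) • a) = ∑ x, (F (g x + a) + F (g x - a)) := by
  have h1 : ∑ x, F (g x + sg 𝕜 (x i) • a) = ∑ x, F (g x - sg 𝕜 (x i) • a) := by
    rw [← Equiv.sum_comp (flip i)]
    apply Finset.sum_congr rfl
    intro x _
    rw [hg]
    congr 1
    simp [flip, sg_not, sub_eq_add_neg]
  have h2 : 2 * ∑ x, F (g x + sg 𝕜 (x i) • a) =
      ∑ x, (F (g x + sg 𝕜 (x i) • a) + F (g x - sg 𝕜 (x i) • a)) := by
    rw [Finset.sum_add_distrib, ← h1]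
    ring
  rw [h2]
  apply Finset.sum_congr rfl
  intro x _
  cases x i <;> simp [sg, sub_eq_add_neg, add_comm]

lemma sum_not_mem {s : Finset I} {i : I} (hi : i ∉ s) (a : I → H) (x : I → Bool) :
    ∑ j ∈ s, sg 𝕜 (flip i x j) • a j = ∑ j ∈ s, sg 𝕜 (x j) • a j := by
  apply Finset.sum_congr rfl
  intro j hj
  have : j ≠ i := fun h => hi (h ▸ hj)
  simp [flip, Function.update_of_ne this]

lemma mom2 (s : Finset I) (a : I → H) :
    ∑ x : I → Bool, ‖∑ i ∈ s, sg 𝕜 (x i) • a i‖ ^ 2 =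
      (Fintype.card (I → Bool) : ℝ) * ∑ i ∈ s, ‖a i‖ ^ 2 := by
  induction s using Finset.induction_on with
  | empty => simp
  | insert i s hi ih =>
    have h1 : ∀ x : I → Bool, ∑ j ∈ insert i s, sg 𝕜 (x j) • a j =
        (∑ j ∈ s, sg 𝕜 (x j) • a j) + sg 𝕜 (x i) • a i := by
      intro x
      rw [Finset.sum_insert hi, add_comm]
    simp only [h1]
    have h2 := sum_flip (𝕜 := 𝕜) i (fun v : H => ‖v‖ ^ 2) (fun x => ∑ j ∈ s, sg 𝕜 (x j) • a j)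
      (fun x => sum_not_mem hi a x) (a i)
    have h3 : ∀ v w : H, ‖v + w‖ ^ 2 + ‖v - w‖ ^ 2 = 2 * (‖v‖ ^ 2 + ‖w‖ ^ 2) := by
      intro v w
      have := parallelogram_law_with_norm 𝕜 v w
      nlinarith
    simp only [h3] at h2
    rw [← Finset.mul_sum, Finset.sum_add_distrib, ih, Finset.sum_const, Finset.card_univ,
      nsmul_eq_mul] at h2
    rw [Finset.sum_insert hi]
    linarith

lemma four (𝕜 : Type*) [RCLike 𝕜] {H : Type*} [NormedAddCommGroup H] [InnerProductSpace 𝕜 H]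
    (v a : H) : ‖v + a‖ ^ 4 + ‖v - a‖ ^ 4 ≤
    2 * (‖v‖ ^ 4 + 6 * (‖v‖ ^ 2 * ‖a‖ ^ 2) + ‖a‖ ^ 4) := by
  have h1 : ‖v + a‖ ^ 2 = ‖v‖ ^ 2 + 2 * RCLike.re (inner 𝕜 v a) + ‖a‖ ^ 2 := norm_add_sq v a
  have h2 : ‖v - a‖ ^ 2 = ‖v‖ ^ 2 - 2 * RCLike.re (inner 𝕜 v a) + ‖a‖ ^ 2 := norm_sub_sq v a
  have h3 : |RCLike.re (inner 𝕜 v a)| ≤ ‖v‖ * ‖a‖ :=
    (RCLike.abs_re_le_norm _).trans (norm_inner_le_norm v a)
  have h4 : (RCLike.re (inner 𝕜 v a)) ^ 2 ≤ (‖v‖ * ‖a‖) ^ 2 := by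
    rw [← sq_abs]
    exact pow_le_pow_left₀ (abs_nonneg _) h3 2
  have e1 : ‖v + a‖ ^ 4 = (‖v + a‖ ^ 2) ^ 2 := by ring
  have e2 : ‖v - a‖ ^ 4 = (‖v - a‖ ^ 2) ^ 2 := by ring
  rw [e1, e2, h1, h2]
  nlinarith

lemma mom4 (s : Finset I) (a : I → H) :
    ∑ x : I → Bool, ‖∑ i ∈ s, sg 𝕜 (x i) • a i‖ ^ 4 ≤
      3 * (Fintype.card (I → Bool) : ℝ) * (∑ i ∈ s, ‖a i‖ ^ 2) ^ 2 := by
  induction s using Finset.induction_on with
  | empty => simp
  | insert i s hi ih =>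
    have h1 : ∀ x : I → Bool, ∑ j ∈ insert i s, sg 𝕜 (x j) • a j =
        (∑ j ∈ s, sg 𝕜 (x j) • a j) + sg 𝕜 (x i) • a i := by
      intro x
      rw [Finset.sum_insert hi, add_comm]
    simp only [h1]
    have h2 := sum_flip (𝕜 := 𝕜) i (fun v : H => ‖v‖ ^ 4) (fun x => ∑ j ∈ s, sg 𝕜 (x j) • a j)
      (fun x => sum_not_mem hi a x) (a i)
    have h3 : ∑ x : I → Bool, (‖(∑ j ∈ s, sg 𝕜 (x j) • a j) + a i‖ ^ 4 +
        ‖(∑ j ∈ s, sg 𝕜 (x j) • a j) - a i‖ ^ 4) ≤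
        ∑ x : I → Bool, 2 * (‖∑ j ∈ s, sg 𝕜 (x j) • a j‖ ^ 4 +
          6 * (‖∑ j ∈ s, sg 𝕜 (x j) • a j‖ ^ 2 * ‖a i‖ ^ 2) + ‖a i‖ ^ 4) :=
      Finset.sum_le_sum fun x _ => four 𝕜 _ _
    rw [← h2] at h3
    simp only [← Finset.mul_sum, Finset.sum_add_distrib, ← Finset.sum_mul, mom2,
      Finset.sum_const, Finset.card_univ, nsmul_eq_mul] at h3
    rw [Finset.sum_insert hi]
    have hS : 0 ≤ ∑ j ∈ s, ‖a j‖ ^ 2 := Finset.sum_nonneg fun _ _ => sq_nonneg _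
    have ha : 0 ≤ ‖a i‖ ^ 2 := sq_nonneg _
    have hN : (0 : ℝ) ≤ Fintype.card (I → Bool) := Nat.cast_nonneg _
    have e : ‖a i‖ ^ 4 = (‖a i‖ ^ 2) ^ 2 := by ring
    rw [e] at h3
    have h5 := mul_nonneg hN (sq_nonneg (‖a i‖ ^ 2))
    nlinarith

end vec

section chaos

variable {I J : Type*} [Fintype I] [DecidableEq I] [Fintype J] [DecidableEq J]

/-- the bilinear form with the coefficients `a` -/
def ch (a : I × J → 𝕜) (z : (I → Bool) × (J → Bool)) : 𝕜 :=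
  ∑ q : I × J, sg 𝕜 (z.1 q.1) * sg 𝕜 (z.2 q.2) * a q

/-- the column `j` -/
noncomputable def colv (a : I × J → 𝕜) (j : J) : EuclideanSpace 𝕜 I :=
  WithLp.toLp 2 fun i => a (i, j)

lemma ch_eq (a : I × J → 𝕜) (x : I → Bool) (y : J → Bool) :
    ch a (x, y) = ∑ i, sg 𝕜 (x i) • (∑ j, sg 𝕜 (y j) • colv a j) i := by
  unfold ch
  rw [Fintype.sum_prod_type]
  apply Finset.sum_congr rfl
  intro i _
  have : (∑ j, sg 𝕜 (y j) • colv a j) i = ∑ j, sg 𝕜 (y j) * a (i, j) := by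
    simp [colv]
  rw [this, smul_eq_mul, Finset.mul_sum]
  apply Finset.sum_congr rfl
  intro j _
  ring

lemma sum_colv (a : I × J → 𝕜) : ∑ j, ‖colv a j‖ ^ 2 = ∑ q, ‖a q‖ ^ 2 := by
  rw [Fintype.sum_prod_type_right]
  apply Finset.sum_congr rfl
  intro j _
  rw [EuclideanSpace.norm_sq_eq]
  rfl

/-- the number of points -/
noncomputable def num (I J : Type*) [Fintype I] [DecidableEq I] [Fintype J] [DecidableEq J] : ℝ :=
  (Fintype.card (I → Bool) : ℝ) * Fintype.card (J → Bool)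

lemma num_pos : 0 < num I J := by
  unfold num
  have h1 : 0 < Fintype.card (I → Bool) := Fintype.card_pos
  have h2 : 0 < Fintype.card (J → Bool) := Fintype.card_pos
  positivity

lemma ch2 (a : I × J → 𝕜) : ∑ z, ‖ch a z‖ ^ 2 = num I J * ∑ q, ‖a q‖ ^ 2 := by
  rw [Fintype.sum_prod_type_right]
  have h1 : ∀ y : J → Bool, ∑ x : I → Bool, ‖ch a (x, y)‖ ^ 2 =
      (Fintype.card (I → Bool) : ℝ) * ‖∑ j, sg 𝕜 (y j) • colv a j‖ ^ 2 := by
    intro y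
    simp only [ch_eq]
    rw [mom2 (𝕜 := 𝕜) (H := 𝕜), EuclideanSpace.norm_sq_eq]
  simp only [h1]
  rw [← Finset.mul_sum, mom2 (𝕜 := 𝕜), sum_colv]
  unfold num
  ring

lemma ch4 (a : I × J → 𝕜) : ∑ z, ‖ch a z‖ ^ 4 ≤ 9 * num I J * (∑ q, ‖a q‖ ^ 2) ^ 2 := by
  rw [Fintype.sum_prod_type_right]
  have h1 : ∀ y : J → Bool, ∑ x : I → Bool, ‖ch a (x, y)‖ ^ 4 ≤
      3 * (Fintype.card (I → Bool) : ℝ) * ‖∑ j, sg 𝕜 (y j) • colv a j‖ ^ 4 := by
    intro y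
    simp only [ch_eq]
    refine (mom4 (𝕜 := 𝕜) (H := 𝕜) _ _).trans (le_of_eq ?_)
    have e : ‖∑ j, sg 𝕜 (y j) • colv a j‖ ^ 4 = (‖∑ j, sg 𝕜 (y j) • colv a j‖ ^ 2) ^ 2 := by ring
    rw [e, EuclideanSpace.norm_sq_eq]
  refine (Finset.sum_le_sum fun y _ => h1 y).trans ?_
  rw [← Finset.mul_sum]
  have h2 := mom4 (𝕜 := 𝕜) (Finset.univ) (colv a)
  rw [sum_colv] at h2
  have hN : (0 : ℝ) ≤ Fintype.card (I → Bool) := Nat.cast_nonneg _
  calc _ ≤ 3 * (Fintype.card (I → Bool) : ℝ) * (3 * (Fintype.card (J → Bool) : ℝ) *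
        (∑ q, ‖a q‖ ^ 2) ^ 2) := by gcongr
    _ = _ := by unfold num; ring

lemma ch1_upper (a : I × J → 𝕜) :
    (∑ z, ‖ch a z‖) ^ 2 ≤ num I J ^ 2 * ∑ q, ‖a q‖ ^ 2 := by
  have h1 := Finset.sum_mul_sq_le_sq_mul_sq (Finset.univ : Finset ((I → Bool) × (J → Bool)))
    (fun _ => (1:ℝ)) (fun z => ‖ch a z‖)
  simp only [one_mul, one_pow, Finset.sum_const, Finset.card_univ, nsmul_eq_mul, mul_one,
    Fintype.card_prod, Nat.cast_mul] at h1
  rw [ch2] at h1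
  calc _ ≤ _ := h1
    _ = _ := by unfold num; ring

lemma ch1_lower (a : I × J → 𝕜) :
    num I J ^ 2 * ∑ q, ‖a q‖ ^ 2 ≤ (9 * ∑ z, ‖ch a z‖) ^ 2 := by
  set S := ∑ q, ‖a q‖ ^ 2 with hS
  have hS0 : 0 ≤ S := Finset.sum_nonneg fun _ _ => sq_nonneg _
  have hN : 0 < num I J := num_pos
  set L := ∑ z, ‖ch a z‖ with hL
  have hL0 : 0 ≤ L := Finset.sum_nonneg fun _ _ => norm_nonneg _
  rcases hS0.eq_or_lt with h0 | hpos
  · rw [← h0]
    have : 0 ≤ (9 * L) ^ 2 := sq_nonneg _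
    linarith
  · set l := Real.sqrt (18 * S) with hl
    have hl0 : 0 < l := Real.sqrt_pos.mpr (by positivity)
    have hl2 : l ^ 2 = 18 * S := Real.sq_sqrt (by positivity)
    have key : ∀ t : ℝ, 0 ≤ t → t ^ 2 ≤ l * t + t ^ 4 / l ^ 2 := by
      intro t ht
      rcases le_total t l with h | h
      · have : 0 ≤ t ^ 4 / l ^ 2 := by positivity
        nlinarith
      · have h1 : t ^ 2 ≤ t ^ 4 / l ^ 2 := by
          rw [le_div_iff₀ (by positivity)]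
          have : l ^ 2 ≤ t ^ 2 := pow_le_pow_left₀ hl0.le h 2
          nlinarith [sq_nonneg t]
        have : 0 ≤ l * t := by positivity
        linarith
    have h1 : ∑ z, ‖ch a z‖ ^ 2 ≤ ∑ z, (l * ‖ch a z‖ + ‖ch a z‖ ^ 4 / l ^ 2) :=
      Finset.sum_le_sum fun z _ => key _ (norm_nonneg _)
    rw [ch2, Finset.sum_add_distrib, ← Finset.mul_sum, ← Finset.sum_div] at h1
    have h2 : (∑ z, ‖ch a z‖ ^ 4) / l ^ 2 ≤ 9 * num I J * S ^ 2 / (18 * S) := by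
      rw [hl2]
      exact div_le_div_of_nonneg_right (ch4 a) (by positivity)
    have h3 : 9 * num I J * S ^ 2 / (18 * S) = num I J * S / 2 := by
      field_simp
      norm_num
    rw [h3] at h2
    have h4 : num I J * S ≤ 2 * (l * L) := by linarith
    have h5 : (num I J * S) ^ 2 ≤ (2 * (l * L)) ^ 2 := pow_le_pow_left₀ (by positivity) h4 2
    have h6 : (2 * (l * L)) ^ 2 = 72 * S * L ^ 2 := by
      rw [mul_pow, mul_pow, hl2]
      ring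
    rw [h6] at h5
    have h7 : S * (num I J ^ 2 * S) ≤ S * (72 * L ^ 2) := by nlinarith
    have h8 := le_of_mul_le_mul_left h7 hpos
    nlinarith [sq_nonneg L]

/-- an unconditionality inequality -/
lemma ch_le {a b : I × J → 𝕜} (h : ∀ q, ‖a q‖ ≤ ‖b q‖) :
    ∑ z, ‖ch a z‖ ≤ 9 * ∑ z, ‖ch b z‖ := by
  have h1 : (∑ z, ‖ch a z‖) ^ 2 ≤ (9 * ∑ z, ‖ch b z‖) ^ 2 := by
    refine (ch1_upper a).trans (le_trans ?_ (ch1_lower b))
    have hN : 0 < num I J := num_pos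
    gcongr with q _
    exact h q
  exact le_of_sq_le_sq h1 (by positivity)

end chaos

end Pool.Agent.U582.BE
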