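import Pool.Agent.U582.BE.Had
import Pool.Agent.U582.BE.Basis
import Pool.Agent.Results.MP_6df72f_an.BasicExtension

/-! The basic sequence in `ℓ¹`. -/

set_option autoImplicit false

open Finset Filter Topology

namespace Pool.Agent.U582.BE

/-- an enumeration which is adapted to a set `A`, on the fibers of `blk` -/
theorem exists_enum {Γ : Type} [Countable Γ] [Infinite Γ] (A : Γ → Prop) (blk : Γ → ℕ)
    (hfin : ∀ m, {g | blk g = m}.Finite) :
    ∃ σ : ℕ ≃ Γ, ∀ m, ∃ p, ∀ n, blk (σ n) = m → (n < p ↔ A (σ n)) := by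
  classical
  obtain ⟨enc, henc⟩ := Countable.exists_injective_nat Γ
  have hN : ∀ m, ∃ N, ∀ g, blk g = m → enc g < N := by
    intro m
    obtain ⟨N, hN⟩ := ((hfin m).image enc).bddAbove
    exact ⟨N + 1, fun g hg => Nat.lt_succ_of_le (hN ⟨g, hg, rfl⟩)⟩
  choose N hN using hN
  set c : Γ → ℕ := fun g => if A g then 2 * enc g else 2 * Nat.pair (N (blk g)) (enc g) + 1 with hc
  have hcinj : Function.Injective c := by
    intro g g' h
    simp only [hc] at h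
    split_ifs at h with h1 h2 h2
    · exact henc (by omega)
    · omega
    · omega
    · have h3 : Nat.pair (N (blk g)) (enc g) = Nat.pair (N (blk g')) (enc g') := by omega
      exact henc (Nat.pair_eq_pair.mp h3).2
  have hinf : Infinite (Set.range c) := (Set.infinite_range_of_injective hcinj).to_subtype
  let o : ℕ ≃o Set.range c := Nat.Subtype.orderIsoOfNat (Set.range c)
  let σ : ℕ ≃ Γ := o.toEquiv.trans (Equiv.ofInjective c hcinj).symm
  have hσ : ∀ n, c (σ n) = o n := by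
    intro n
    change c ((Equiv.ofInjective c hcinj).symm (o n)) = o n
    exact Equiv.apply_ofInjective_symm hcinj (o n)
  refine ⟨σ, fun m => ?_⟩
  have hex : ∃ n, 2 * N m ≤ (o n : ℕ) := by
    refine ⟨2 * N m, ?_⟩
    have hmono : StrictMono (fun n => (o n : ℕ)) := fun a b hab => by
      have := o.strictMono hab
      exact this
    exact hmono.le_apply
  refine ⟨Nat.find hex, fun n hn => ?_⟩
  have h1 : n < Nat.find hex ↔ (o n : ℕ) < 2 * N m := by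
    constructor
    · intro h
      exact not_le.mp (Nat.find_min hex h)
    · intro h
      by_contra hcon
      rw [not_lt] at hcon
      have h2 : (o (Nat.find hex) : ℕ) ≤ o n := o.monotone hcon
      have h3 := Nat.find_spec hex
      omega
  rw [h1, ← hσ]
  simp only [hc]
  split_ifs with h2
  · simp only [h2, iff_true]
    have := hN m (σ n) hn
    omega
  · simp only [h2, iff_false, not_lt]
    rw [hn]
    have := Nat.left_le_pair (N m) (enc (σ n))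
    omega

variable (𝕜 : Type) [RCLike 𝕜]

/-- the space `ℓ¹` -/
abbrev L1 := lp (fun _ : ℕ => 𝕜) 1

variable {𝕜}

lemma norm_l1 (v : L1 𝕜) : ‖v‖ = ∑' n, ‖v n‖ := by
  rw [lp.norm_eq_tsum_rpow (by simp)]
  simp

lemma summable_l1 (v : L1 𝕜) : Summable fun n => ‖v n‖ := by
  have := lp.memℓp v
  rw [memℓp_gen_iff (by simp)] at this
  simpa using this

/-- the set of the points -/
abbrev Gam := Σ m : ℕ, (Ix m → Bool) × (Ix m → Bool)

/-- the index set of the sequence -/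
abbrev Gam' := Σ m : ℕ, Ix m × Ix m

instance : Infinite Gam := Infinite.of_injective (fun m : ℕ => (⟨m, (fun _ => true, fun _ => true)⟩ : Gam))
  (fun a b h => by simpa using congrArg Sigma.fst h)

instance : Infinite Gam' := Infinite.of_injective (fun m : ℕ => (⟨m, (fun _ => true, fun _ => true)⟩ : Gam'))
  (fun a b h => by simpa using congrArg Sigma.fst h)

/-- numbering of the points -/
noncomputable def ta : Gam ≃ ℕ := (nonempty_equiv_of_countable (α := Gam) (β := ℕ)).some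

lemma norm_split (v : L1 𝕜) : ‖v‖ = ∑' m : ℕ, ∑ z, ‖v (ta ⟨m, z⟩)‖ := by
  rw [norm_l1, ← ta.tsum_eq]
  have h1 : Summable fun g : Gam => ‖v (ta g)‖ := (ta.summable_iff).mpr (summable_l1 v)
  rw [h1.tsum_sigma' (fun m => (hasSum_fintype _).summable)]
  simp only [tsum_fintype]

lemma summable_split (v : L1 𝕜) : Summable fun m : ℕ => ∑ z, ‖v (ta ⟨m, z⟩)‖ := by
  have h1 : Summable fun g : Gam => ‖v (ta g)‖ := (ta.summable_iff).mpr (summable_l1 v)
  have h2 := h1.sigma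
  simpa only [tsum_fintype] using h2

lemma block_le (v : L1 𝕜) (m : ℕ) : ∑ z, ‖v (ta ⟨m, z⟩)‖ ≤ ‖v‖ := by
  rw [norm_split]
  exact (summable_split v).le_tsum m (fun _ _ => Finset.sum_nonneg fun _ _ => norm_nonneg _)

/-- the functions -/
noncomputable def phi (g : Gam') : L1 𝕜 :=
  ∑ z, ((((nn g.1)⁻¹ : ℝ) : 𝕜) * wal 𝕜 g.2 z) • lp.single 1 (ta ⟨g.1, z⟩) (1 : 𝕜)

lemma sum_apply' {ι : Type*} (s : Finset ι) (f : ι → L1 𝕜) (n : ℕ) :
    (∑ i ∈ s, f i : L1 𝕜) n = ∑ i ∈ s, f i n := by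
  rw [lp.coeFn_sum, Finset.sum_apply]

lemma phi_apply (m : ℕ) (q : Ix m × Ix m) (g : Gam) :
    (phi ⟨m, q⟩ : L1 𝕜) (ta g) =
      ∑ z, ((((nn m)⁻¹ : ℝ) : 𝕜) * wal 𝕜 q z) * (if g = ⟨m, z⟩ then 1 else 0) := by
  unfold phi
  rw [sum_apply']
  apply Finset.sum_congr rfl
  intro z _
  rw [lp.coeFn_smul, Pi.smul_apply, smul_eq_mul, lp.single_apply, Pi.single_apply]
  simp only [ta.injective.eq_iff]

lemma phi_same (m : ℕ) (q : Ix m × Ix m) (z : (Ix m → Bool) × (Ix m → Bool)) :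
    (phi ⟨m, q⟩ : L1 𝕜) (ta ⟨m, z⟩) = (((nn m)⁻¹ : ℝ) : 𝕜) * wal 𝕜 q z := by
  rw [phi_apply, Finset.sum_eq_single z]
  · simp
  · intro z' _ hz'
    rw [if_neg, mul_zero]
    intro h
    have := eq_of_heq (Sigma.mk.inj h).2
    exact hz' this.symm
  · intro h
    exact absurd (Finset.mem_univ z) h

lemma phi_ne {m m' : ℕ} (h : m' ≠ m) (q : Ix m × Ix m) (z : (Ix m' → Bool) × (Ix m' → Bool)) :
    (phi ⟨m, q⟩ : L1 𝕜) (ta ⟨m', z⟩) = 0 := by
  rw [phi_apply]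
  apply Finset.sum_eq_zero
  intro z' _
  rw [if_neg, mul_zero]
  intro h'
  exact h (Sigma.mk.inj h').1

open Classical in
lemma comb_apply (F : Finset Gam') (a : Gam' → 𝕜) (m : ℕ) (z : (Ix m → Bool) × (Ix m → Bool)) :
    (∑ g ∈ F, a g • phi g : L1 𝕜) (ta ⟨m, z⟩) =
      (((nn m)⁻¹ : ℝ) : 𝕜) * ch (fun q => if (⟨m, q⟩ : Gam') ∈ F then a ⟨m, q⟩ else 0) z := by
  rw [sum_apply']
  unfold ch
  rw [Finset.mul_sum]
  have h1 : ∀ q : Ix m × Ix m, (((nn m)⁻¹ : ℝ) : 𝕜) * (sg 𝕜 (z.1 q.1) * sg 𝕜 (z.2 q.2) *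
      (if (⟨m, q⟩ : Gam') ∈ F then a ⟨m, q⟩ else 0)) =
      if (⟨m, q⟩ : Gam') ∈ F then (a ⟨m, q⟩ • phi ⟨m, q⟩ : L1 𝕜) (ta ⟨m, z⟩) else 0 := by
    intro q
    split_ifs
    · rw [lp.coeFn_smul, Pi.smul_apply, smul_eq_mul, phi_same]
      unfold wal
      ring
    · simp
  simp only [h1]
  rw [← Finset.sum_filter]
  have h2 : ∑ g ∈ F, (a g • phi g : L1 𝕜) (ta ⟨m, z⟩) =
      ∑ g ∈ F.filter (fun g => g.1 = m), (a g • phi g : L1 𝕜) (ta ⟨m, z⟩) := by
    symm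
    apply Finset.sum_subset (Finset.filter_subset _ _)
    rintro ⟨m', q⟩ hg hg'
    have hne : m ≠ m' := by
      intro h
      exact hg' (Finset.mem_filter.mpr ⟨hg, h.symm⟩)
    rw [lp.coeFn_smul, Pi.smul_apply, phi_ne hne, smul_zero]
  rw [h2]
  symm
  refine Finset.sum_bij (fun q _ => (⟨m, q⟩ : Gam')) ?_ ?_ ?_ ?_
  · intro q hq
    rw [Finset.mem_filter] at hq ⊢
    exact ⟨hq.2, rfl⟩
  · intro q _ q' _ h
    exact eq_of_heq (Sigma.mk.inj h).2
  · rintro ⟨m', q⟩ hg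
    rw [Finset.mem_filter] at hg
    obtain ⟨h3, h4⟩ := hg
    dsimp only at h4
    subst h4
    exact ⟨q, by rw [Finset.mem_filter]; exact ⟨Finset.mem_univ _, h3⟩, rfl⟩
  · intro q _
    rfl

/-- unconditionality -/
lemma comb_le {F F' : Finset Gam'} (hF : F ⊆ F') (a : Gam' → 𝕜) :
    ‖(∑ g ∈ F, a g • phi g : L1 𝕜)‖ ≤ 9 * ‖(∑ g ∈ F', a g • phi g : L1 𝕜)‖ := by
  classical
  rw [norm_split, norm_split (∑ g ∈ F', a g • phi g : L1 𝕜), ← tsum_mul_left]
  refine Summable.tsum_le_tsum (fun m => ?_) (summable_split _) ((summable_split _).mul_left 9)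
  simp only [comb_apply, norm_mul]
  rw [← Finset.mul_sum, ← Finset.mul_sum]
  have h1 := ch_le (𝕜 := 𝕜) (I := Ix m) (J := Ix m)
    (a := fun q => if (⟨m, q⟩ : Gam') ∈ F then a ⟨m, q⟩ else 0)
    (b := fun q => if (⟨m, q⟩ : Gam') ∈ F' then a ⟨m, q⟩ else 0) (fun q => by
      split_ifs with h1 h2 h2
      · exact le_rfl
      · exact absurd (hF h1) h2
      · rw [norm_zero]; exact norm_nonneg _
      · exact le_rfl)
  calc _ ≤ ‖(((nn m)⁻¹ : ℝ) : 𝕜)‖ * (9 * ∑ z, ‖ch (fun q => if (⟨m, q⟩ : Gam') ∈ F' then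
        a ⟨m, q⟩ else 0) z‖) := mul_le_mul_of_nonneg_left h1 (norm_nonneg _)
    _ = _ := by ring

lemma phi_ne_zero (g : Gam') : (phi g : L1 𝕜) ≠ 0 := by
  obtain ⟨m, q⟩ := g
  intro h
  have h1 := phi_same (𝕜 := 𝕜) m q (fun _ => true, fun _ => true)
  rw [h] at h1
  have h2 : (((nn m)⁻¹ : ℝ) : 𝕜) ≠ 0 := by
    simpa using (nn_pos m).ne'
  have h3 : wal 𝕜 q (fun _ => true, fun _ => true) = 1 := by simp [wal, sg]
  rw [h3, mul_one] at h1
  exact h2 (by simpa using h1.symm)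

open Classical in
/-- Each operator which is the identity on the `phi` with positive indices and vanishes on the
others has a large norm. -/
lemma large_norm {K : ℝ} (m : ℕ) (T : L1 𝕜 →L[𝕜] L1 𝕜) (hT : ∀ x, ‖T x‖ ≤ K * ‖x‖)
    (h : ∀ q : Ix m × Ix m, T (phi ⟨m, q⟩) = if Pos m q then phi ⟨m, q⟩ else 0) :
    (2:ℝ) ^ m ≤ 2 * K + 1 := by
  have h1 := trace_ineq (𝕜 := 𝕜) (m := m) (C := K)
    (fun z z' => (T (lp.single 1 (ta ⟨m, z'⟩) (1:𝕜)) : L1 𝕜) (ta ⟨m, z⟩)) ?_ ?_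
  · have h2 := card_pos m
    have h3 : (16:ℝ) ^ m - 8 ^ m ≤ 2 * (K * 8 ^ m) := by linarith
    have h4 : (16:ℝ) ^ m = 2 ^ m * 8 ^ m := by rw [← mul_pow]; norm_num
    have h5 : (0:ℝ) < 8 ^ m := by positivity
    have h6 : (2:ℝ) ^ m * 8 ^ m ≤ (2 * K + 1) * 8 ^ m := by linarith
    exact le_of_mul_le_mul_right h6 h5
  · intro z'
    refine (block_le _ m).trans ((hT _).trans ?_)
    rw [lp.norm_single (by norm_num)]
    simp
  · intro q z
    have hn : (((nn m : ℝ)) : 𝕜) * (((nn m)⁻¹ : ℝ) : 𝕜) = 1 := by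
      rw [← RCLike.ofReal_mul, mul_inv_cancel₀ (nn_pos m).ne', RCLike.ofReal_one]
    have h2 : ∑ z', wal 𝕜 q z' * (T (lp.single 1 (ta ⟨m, z'⟩) (1:𝕜)) : L1 𝕜) (ta ⟨m, z⟩) =
        ((nn m : ℝ) : 𝕜) * (T (phi ⟨m, q⟩) : L1 𝕜) (ta ⟨m, z⟩) := by
      unfold phi
      rw [map_sum, sum_apply', Finset.mul_sum]
      apply Finset.sum_congr rfl
      intro z' _
      rw [map_smul, lp.coeFn_smul, Pi.smul_apply, smul_eq_mul, ← mul_assoc, ← mul_assoc, hn,
        one_mul]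
    rw [h2, h]
    split_ifs
    · rw [phi_same, ← mul_assoc, hn, one_mul]
    · simp

end Pool.Agent.U582.BE
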